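import Pool.Agent.H92.S2.LUT2
import Pool.Agent.H48.SFU.BAS

/-!
# MP_70ba79_ag, THEOREM S, part 2: module BAS2 (`J` is in the ideal of `G` and `J * dd 2 G` on the
line)
-/

set_option autoImplicit false

namespace Pool.Agent.H55.SFV

open MvPolynomial
open Pool.Agent.H84.SM (dp cr dt)
open Pool.Agent.H3.SF Pool.Agent.H3.S2 Pool.Agent.H92.SF Pool.Agent.H92.S2
open Pool.Agent.H48.SFU (bs_expand bs_trans bs_scale bs_mod)

section Abstract

/-- the abstract descent: a minimal relation -/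
theorem b2_min {k B : Type} [Field k] [CommRing B] [Algebra k B] {g a b : B}
    (hN1 : ∀ z, g ∣ a * z → ∃ M, g ∣ b ^ M * z) (hN0 : ∀ M, ¬ g ∣ b ^ M) (v : Fin 2 → B) (d : ℕ)
    (h : ∃ (L : ℕ) (c : ℕ → MvPolynomial (Fin 2) k),
      (∀ i < L, (c i).IsHomogeneous ((L - i) * d)) ∧
      g ∣ a ^ L + ∑ i ∈ Finset.range L, aeval v (c i) * a ^ i) :
    ∃ (D M : ℕ) (P : MvPolynomial (Fin 2) k) (y z : B), P.IsHomogeneous D ∧ aeval v P ≠ 0 ∧
      b ^ M * aeval v P = g * z - a * y := by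
  classical
  have h' : ∃ (L M : ℕ) (c : ℕ → MvPolynomial (Fin 2) k),
      (∀ i < L, (c i).IsHomogeneous ((L - i) * d)) ∧
      g ∣ b ^ M * (a ^ L + ∑ i ∈ Finset.range L, aeval v (c i) * a ^ i) := by
    obtain ⟨L, c, hc, hg⟩ := h
    exact ⟨L, 0, c, hc, by rwa [pow_zero, one_mul]⟩
  obtain ⟨L, hL⟩ : ∃ L, L = Nat.find h' := ⟨_, rfl⟩
  obtain ⟨M, c, hc1, hc2⟩ := Nat.find_spec h'
  rw [← hL] at hc1 hc2
  rcases L with _ | L
  · exfalso
    rw [pow_zero, Finset.range_zero, Finset.sum_empty, add_zero, mul_one] at hc2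
    exact hN0 M hc2
  · have h1 : a ^ (L + 1) + ∑ i ∈ Finset.range (L + 1), aeval v (c i) * a ^ i =
        aeval v (c 0) + a * (a ^ L + ∑ i ∈ Finset.range L, aeval v (c (i + 1)) * a ^ i) := by
      rw [Finset.sum_range_succ', pow_zero, mul_one, mul_add, Finset.mul_sum]
      have h2 : ∀ i, a * (aeval v (c (i + 1)) * a ^ i) = aeval v (c (i + 1)) * a ^ (i + 1) :=
        fun i => by ring
      simp only [h2]
      ring
    rw [h1] at hc2
    obtain ⟨z, hz⟩ := hc2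
    refine ⟨(L + 1 - 0) * d, M, c 0,
      b ^ M * (a ^ L + ∑ i ∈ Finset.range L, aeval v (c (i + 1)) * a ^ i), z,
      hc1 0 (Nat.succ_pos L), ?_, ?_⟩
    · intro h0
      rw [h0, zero_add] at hz
      obtain ⟨M', hM'⟩ := hN1 (b ^ M * (a ^ L + ∑ i ∈ Finset.range L,
        aeval v (c (i + 1)) * a ^ i)) ⟨z, by rw [← hz]; ring⟩
      have h4 : L < Nat.find h' := by omega
      refine Nat.find_min h' h4 ⟨M' + M, fun i => c (i + 1), fun i hi => ?_, ?_⟩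
      · have h5 := hc1 (i + 1) (by omega)
        have h6 : L + 1 - (i + 1) = L - i := by omega
        rwa [h6] at h5
      · rwa [pow_add, mul_assoc]
    · rw [← hz]
      ring

/-- a sum whose first terms are zero -/
theorem b2_low {B : Type} [CommRing B] (f : ℕ → B) (x : B) (r : ℕ) (hf : ∀ i < r, f i = 0) (n : ℕ)
    (hn : r ≤ n) : ∃ w, ∑ i ∈ Finset.range (n + 1), f i * x ^ i = x ^ r * (f r + x * w) := by
  induction n, hn using Nat.le_induction with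
  | base =>
    refine ⟨0, ?_⟩
    rw [Finset.sum_range_succ, Finset.sum_eq_zero fun i hi => ?_]
    · ring
    · rw [hf i (Finset.mem_range.1 hi), zero_mul]
  | succ n hn ih =>
    obtain ⟨w, hw⟩ := ih
    obtain ⟨M, rfl⟩ : ∃ M, n = r + M := ⟨n - r, by omega⟩
    refine ⟨w + x ^ M * f (r + M + 1), ?_⟩
    rw [Finset.sum_range_succ, hw]
    ring

/-- a reduced element -/
theorem b2_pow {B : Type} [CommRing B] {g : B} (hred : ∀ x : B, g ∣ x * x → g ∣ x) (n : ℕ) :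
    ∀ x : B, g ∣ x ^ n → g ∣ x := by
  induction n using Nat.strong_induction_on with
  | _ n ih =>
    intro x hx
    rcases Nat.lt_or_ge n 2 with h1 | h1
    · refine hred x ?_
      obtain ⟨M, hM⟩ : ∃ M, 2 = n + M := ⟨2 - n, by omega⟩
      rw [← pow_two, hM, pow_add]
      exact hx.mul_right _
    · obtain ⟨M, hM⟩ : ∃ M, (n + 1) / 2 + (n + 1) / 2 = n + M :=
        ⟨(n + 1) / 2 + (n + 1) / 2 - n, by omega⟩
      refine ih ((n + 1) / 2) (by omega) x (hred _ ?_)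
      rw [← pow_add, hM, pow_add]
      exact hx.mul_right _

/-- the relation for `b` -/
theorem b2_jj {k B : Type} [Field k] [CommRing B] [Nontrivial B] [Algebra k B] {g b : B}
    (hred : ∀ x : B, g ∣ x * x → g ∣ x) (N : ℕ) (v : Fin 2 → B) (d : ℕ)
    (h : ∃ (L : ℕ) (c : ℕ → MvPolynomial (Fin 2) k),
      (∀ i < L, (c i).IsHomogeneous ((L - i) * d)) ∧
      g ∣ (b ^ N) ^ L + ∑ i ∈ Finset.range L, aeval v (c i) * (b ^ N) ^ i) :
    ∃ (D : ℕ) (C : MvPolynomial (Fin 2) k) (w w' : B), C.IsHomogeneous D ∧ aeval v C ≠ 0 ∧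
      aeval v C * b = g * w' - b ^ (N + 1) * w := by
  classical
  obtain ⟨L, c, hc, hg⟩ := h
  obtain ⟨c', hc'⟩ : ∃ c' : ℕ → MvPolynomial (Fin 2) k, ∀ i, c' i = if i = L then 1 else c i :=
    ⟨_, fun i => rfl⟩
  have hL : aeval v (c' L) = 1 := by
    rw [hc', if_pos rfl, map_one]
  have hlt : ∀ i < L, c' i = c i := fun i hi => by rw [hc', if_neg (by omega)]
  have hhom : ∀ i ≤ L, (c' i).IsHomogeneous ((L - i) * d) := by
    intro i hi
    rcases Nat.lt_or_ge i L with h1 | h1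
    · rw [hlt i h1]
      exact hc i h1
    · have h2 : i = L := by omega
      rw [hc', if_pos h2, h2, Nat.sub_self, zero_mul]
      exact isHomogeneous_one _ _
  have hsum : (b ^ N) ^ L + ∑ i ∈ Finset.range L, aeval v (c i) * (b ^ N) ^ i =
      ∑ i ∈ Finset.range (L + 1), aeval v (c' i) * (b ^ N) ^ i := by
    rw [Finset.sum_range_succ, hL, one_mul, add_comm]
    congr 1
    refine Finset.sum_congr rfl fun i hi => ?_
    rw [hlt i (Finset.mem_range.1 hi)]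
  have hex : ∃ i, i ≤ L ∧ aeval v (c' i) ≠ 0 := ⟨L, le_rfl, by rw [hL]; exact one_ne_zero⟩
  obtain ⟨r, hr⟩ : ∃ r, r = Nat.find hex := ⟨_, rfl⟩
  obtain ⟨hrL, hr0⟩ := Nat.find_spec hex
  rw [← hr] at hrL hr0
  have hmin : ∀ i < r, aeval v (c' i) = 0 := by
    intro i hi
    by_contra h1
    exact Nat.find_min hex (hr ▸ hi) ⟨by omega, h1⟩
  obtain ⟨w, hw⟩ := b2_low (fun i => aeval v (c' i)) (b ^ N) r hmin L hrL
  rw [hsum, hw] at hg
  have h1 : g ∣ (b * (aeval v (c' r) + b ^ N * w)) ^ (N * r + 1) := by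
    have h2 : (b * (aeval v (c' r) + b ^ N * w)) ^ (N * r + 1) =
        (b ^ N) ^ r * (aeval v (c' r) + b ^ N * w) *
          (b * (aeval v (c' r) + b ^ N * w) ^ (N * r)) := by
      rw [← pow_mul, mul_pow, pow_succ, pow_succ]
      ring
    rw [h2]
    exact hg.mul_right _
  obtain ⟨w', hw'⟩ := b2_pow hred _ _ h1
  refine ⟨(L - r) * d, c' r, w, w', hhom r hrL, hr0, ?_⟩
  rw [← hw']
  ring

/-- the combination of the two relations -/
theorem b2_comb {k B : Type} [Field k] [CommRing B] [IsDomain B] [Algebra k B] {g s b : B} {N : ℕ}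
    (hN : 1 ≤ N) (hred : ∀ x : B, g ∣ x * x → g ∣ x)
    (hN1 : ∀ z, g ∣ s * z → g ∣ b * z) (hN0 : ¬ g ∣ b) (v : Fin 2 → B) (d d' : ℕ)
    (h : ∃ (L : ℕ) (c : ℕ → MvPolynomial (Fin 2) k),
      (∀ i < L, (c i).IsHomogeneous ((L - i) * d)) ∧
      g ∣ (s ^ N) ^ L + ∑ i ∈ Finset.range L, aeval v (c i) * (s ^ N) ^ i)
    (h' : ∃ (L : ℕ) (c : ℕ → MvPolynomial (Fin 2) k),
      (∀ i < L, (c i).IsHomogeneous ((L - i) * d')) ∧
      g ∣ (b ^ N) ^ L + ∑ i ∈ Finset.range L, aeval v (c i) * (b ^ N) ^ i) :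
    ∃ (D : ℕ) (Q : MvPolynomial (Fin 2) k) (y z : B), Q.IsHomogeneous D ∧ aeval v Q ≠ 0 ∧
      aeval v Q * b = g * z - s * y := by
  have hN1' : ∀ (n : ℕ) (z : B), g ∣ s ^ n * z → g ∣ b ^ n * z := by
    intro n
    induction n with
    | zero =>
      intro z hz
      rw [pow_zero] at hz ⊢
      exact hz
    | succ n ih =>
      intro z hz
      have h1 : g ∣ s * (s ^ n * z) := by
        have h2 : s * (s ^ n * z) = s ^ (n + 1) * z := by ring
        rwa [h2]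
      have h3 := hN1 _ h1
      have h4 : b * (s ^ n * z) = s ^ n * (b * z) := by ring
      rw [h4] at h3
      have h5 := ih _ h3
      have h6 : b ^ n * (b * z) = b ^ (n + 1) * z := by ring
      rwa [h6] at h5
  obtain ⟨D, M, P, y, z, hP, hP0, hPe⟩ := b2_min (k := k) (g := g) (a := s ^ N) (b := b)
    (fun z hz => ⟨N, hN1' N z hz⟩) (fun M hM => hN0 (b2_pow hred M b hM)) v d h
  obtain ⟨D', C, w, w', hC, hC0, hCe⟩ := b2_jj (k := k) (g := g) (b := b) hred N v d' h'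
  have hit : ∀ e : ℕ, ∃ x y : B, aeval v C ^ e * b = b ^ (N * e + 1) * x + g * y := by
    intro e
    induction e with
    | zero => exact ⟨1, 0, by rw [mul_zero, zero_add, pow_zero, pow_one]; ring⟩
    | succ e ih =>
      obtain ⟨x, y, hxy⟩ := ih
      refine ⟨-(w * x), b ^ (N * e) * w' * x + aeval v C * y, ?_⟩
      have h1 : aeval v C ^ (e + 1) * b = b ^ (N * e) * (aeval v C * b) * x +
          g * (aeval v C * y) := by
        have h2 : aeval v C ^ (e + 1) * b = aeval v C * (aeval v C ^ e * b) := by ring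
        rw [h2, hxy]
        ring
      rw [h1, hCe]
      ring
  obtain ⟨x, t, hxt⟩ := hit M
  obtain ⟨r, hr⟩ : ∃ r, N * M + 1 = M + r := ⟨N * M + 1 - M, by
    have h1 : M ≤ N * M := Nat.le_mul_of_pos_left M hN
    omega⟩
  obtain ⟨N', rfl⟩ : ∃ N', N = N' + 1 := ⟨N - 1, by omega⟩
  refine ⟨D' * M + D, C ^ M * P, b ^ r * x * s ^ N' * y, b ^ r * x * z + aeval v P * t,
    (hC.pow M).mul hP, ?_, ?_⟩
  · rw [map_mul, map_pow]
    exact mul_ne_zero (pow_ne_zero _ hC0) hP0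
  · have h1 : aeval v (C ^ M * P) * b = aeval v P * (aeval v C ^ M * b) := by
      rw [map_mul, map_pow]
      ring
    rw [h1, hxt, hr, pow_add]
    have h2 : aeval v P * (b ^ M * b ^ r * x + g * t) =
        b ^ r * x * (b ^ M * aeval v P) + g * (aeval v P * t) := by ring
    rw [h2, hPe]
    ring

end Abstract

theorem pf_BAS2 (hDAT : T_DAT2) (hFRK : T_FRK2) : T_BAS2 := by
  intro k F _ _ _ _ _ u dd δ j0 c0 J m G h
  have : CharZero F := charZero_of_injective_algebraMap (algebraMap k F).injective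
  obtain ⟨N, q, hN, hq, hq1, hqG⟩ := h.mon
  obtain ⟨-, hu0, hJ0, -, hEu, hEJ, hEg, -, hIg, -⟩ := hDAT k F u dd δ j0 c0 J m G h.toBw
  obtain ⟨-, -, -, hIK, -, -⟩ := hFRK k F u dd δ j0 c0 J m G h.toBw
  have hbig := h.big
  obtain ⟨S, hS⟩ : ∃ S : F, S = aeval u J * dd 2 G := ⟨_, rfl⟩
  have hSI : Itg k u S := by rw [hS]; exact hIg 2
  obtain ⟨D1, hD1⟩ : ∃ D1 : ℕ, D1 = j0 + m - 1 := ⟨_, rfl⟩
  have hSE : Hm k (eu u dd) (D1 : ℤ) S := by
    have h1 := Pool.Agent.H62.HIL.hm_mul hEJ (hEg 2)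
    have h2 : (j0 : ℤ) + ((m : ℤ) - 1) = (D1 : ℤ) := by
      rw [hD1]
      omega
    rw [h2, ← hS] at h1
    exact h1
  obtain ⟨E', hE'⟩ : ∃ E' : Derivation k F F, E' = (N : k)⁻¹ • eu u dd := ⟨_, rfl⟩
  have hNk : (N : k) ≠ 0 := Nat.cast_ne_zero.2 (by omega)
  have hE1 : ∀ (t : ℤ) (x : F), Hm k (eu u dd) (N * t) x → Hm k E' t x := by
    intro t x hx
    unfold Hm at *
    rw [hE', Derivation.smul_apply, hx, Algebra.smul_def, map_inv₀, map_natCast]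
    have h1 : (N : F) ≠ 0 := Nat.cast_ne_zero.2 (by omega)
    push_cast
    field_simp
  have hv' : ∀ i, Hm k E' 1 ((![u 0 ^ N, u 1 ^ N, aeval u q] : Fin 3 → F) i) := by
    intro i
    refine hE1 1 _ ?_
    fin_cases i
    · exact Pool.Agent.H62.HIL.hm_pow (hEu 0) N
    · exact Pool.Agent.H62.HIL.hm_pow (hEu 1) N
    · have h1 := Pool.Agent.H62.HIL.hm_aeval hEu hq
      rw [mul_one]
      exact h1
  -- in the ring of integral elements
  obtain ⟨u', hu'⟩ : ∃ u' : Fin 3 → Bb k u, ∀ i, ((u' i : Bb k u) : F) = u i :=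
    ⟨fun i => ⟨u i, Pool.Agent.H62.HIL.itg_iff.2 (Pool.Agent.H62.HIL.itg_var u i)⟩, fun i => rfl⟩
  obtain ⟨GG, hGG⟩ : ∃ GG : Bb k u, (GG : F) = G := ⟨⟨G, h.itg⟩, rfl⟩
  obtain ⟨w, hw⟩ : ∃ w : Bb k u, (w : F) = aeval u q / G := ⟨⟨_, hqG⟩, rfl⟩
  obtain ⟨SS, hSS⟩ : ∃ SS : Bb k u, (SS : F) = S := ⟨⟨S, hSI⟩, rfl⟩
  have hdiv : ∀ x : Bb k u, GG ∣ x ↔ Itg k u ((x : F) / G) := by
    intro x
    constructor
    · rintro ⟨z, rfl⟩
      rw [MulMemClass.coe_mul, hGG, mul_div_cancel_left₀ _ h.ne]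
      exact z.2
    · intro hx
      refine ⟨⟨_, hx⟩, Subtype.ext ?_⟩
      rw [MulMemClass.coe_mul, hGG, mul_div_cancel₀ _ h.ne]
  obtain ⟨JJ, hJJ⟩ : ∃ JJ : Bb k u, (JJ : F) = aeval u J :=
    ⟨⟨aeval u J, Pool.Agent.H62.HIL.itg_iff.2 (Pool.Agent.H62.HIL.itg_aeval u J)⟩, rfl⟩
  have hred : ∀ x : Bb k u, GG ∣ x * x → GG ∣ x := by
    intro x hx
    rw [hdiv, MulMemClass.coe_mul] at hx
    rw [hdiv]
    exact h.red _ x.2 hx
  have hN1 : ∀ z : Bb k u, GG ∣ SS * z → GG ∣ JJ * z := by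
    intro z hz
    rw [hdiv, MulMemClass.coe_mul, hSS, hS] at hz
    rw [hdiv, MulMemClass.coe_mul, hJJ]
    exact h.n2 _ z.2 hz
  have hN0 : ¬ GG ∣ JJ := by
    intro h1
    rw [hdiv, hJJ] at h1
    have h2 := Pool.Agent.H62.HIL.hm_div hEJ h.hom h.ne
    have h3 : aeval u J / G ∈ BB k u (eu u dd) ((j0 : ℤ) - m) := ⟨h1, h2⟩
    rw [h.neg _ (by omega), Submodule.mem_bot] at h3
    exact div_ne_zero hJ0 h.ne h3
  have hval : ∀ p : MvPolynomial (Fin 3) k,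
      ((aeval (![u' 0 ^ N, u' 1 ^ N, GG * w] : Fin 3 → Bb k u) p : Bb k u) : F) =
        aeval (![u 0 ^ N, u 1 ^ N, aeval u q] : Fin 3 → F) p := by
    intro p
    have h1 : (Bb k u).val.comp (aeval (![u' 0 ^ N, u' 1 ^ N, GG * w] : Fin 3 → Bb k u)) =
        aeval (![u 0 ^ N, u 1 ^ N, aeval u q] : Fin 3 → F) := by
      refine MvPolynomial.algHom_ext fun i => ?_
      rw [AlgHom.comp_apply, aeval_X, aeval_X, Subalgebra.val_apply]
      fin_cases i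
      · change ((u' 0 ^ N : Bb k u) : F) = u 0 ^ N
        rw [SubmonoidClass.coe_pow, hu']
      · change ((u' 1 ^ N : Bb k u) : F) = u 1 ^ N
        rw [SubmonoidClass.coe_pow, hu']
      · change ((GG * w : Bb k u) : F) = aeval u q
        rw [MulMemClass.coe_mul, hGG, hw, mul_div_cancel₀ _ h.ne]
    exact congrArg (fun f => f p) h1
  have hex : ∀ (x : F) (X' : Bb k u) (D1 : ℕ), (X' : F) = x → Hm k (eu u dd) (D1 : ℤ) x →
      ∃ (L : ℕ) (c : ℕ → MvPolynomial (Fin 2) k),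
      (∀ i < L, (c i).IsHomogeneous ((L - i) * D1)) ∧
      GG ∣ (X' ^ N) ^ L + ∑ i ∈ Finset.range L,
        aeval (![u' 0 ^ N, u' 1 ^ N] : Fin 2 → Bb k u) (c i) * (X' ^ N) ^ i := by
    intro x X' D1 hX hxE
    have ha : x ^ N ∈ BB k ![u 0 ^ N, u 1 ^ N, aeval u q] E' (D1 : ℤ) :=
      ⟨bs_trans hN hq hq1 ((Bb k u).pow_mem (hX ▸ X'.2) N),
        hE1 _ _ (Pool.Agent.H62.HIL.hm_pow hxE N)⟩
    obtain ⟨n, c, hc, hrel⟩ := Pool.Agent.H62.HIL.hom_relation hv' ha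
    refine ⟨n, fun i => aeval (![X 0, X 1, 0] : Fin 3 → MvPolynomial (Fin 2) k) (c i), ?_, ?_⟩
    · intro i hi
      have h1 : (0 : ℤ) ≤ ((n : ℤ) - i) * (D1 : ℤ) :=
        mul_nonneg (by omega) (Int.natCast_nonneg _)
      have h2 := (hc i hi).1 h1
      have h3 : (((n : ℤ) - i) * (D1 : ℤ)).toNat = (n - i) * D1 := by
        have h4 : ((n : ℤ) - i) * (D1 : ℤ) = (((n - i) * D1 : ℕ) : ℤ) := by
          rw [Nat.cast_mul, Nat.cast_sub hi.le]
        rw [h4, Int.toNat_natCast]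
      rw [h3] at h2
      have h5 := h2.aeval (![X 0, X 1, 0] : Fin 3 → MvPolynomial (Fin 2) k) (n := 1) (by
        intro j
        fin_cases j
        · exact isHomogeneous_X _ _
        · exact isHomogeneous_X _ _
        · exact isHomogeneous_zero _ _ _)
      rwa [one_mul] at h5
    · have h1 : (X' ^ N) ^ n + ∑ i ∈ Finset.range n,
          aeval (![u' 0 ^ N, u' 1 ^ N, GG * w] : Fin 3 → Bb k u) (c i) * (X' ^ N) ^ i = 0 := by
        refine Subtype.ext ?_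
        have h2 : ((((X' ^ N) ^ n + ∑ i ∈ Finset.range n,
          aeval (![u' 0 ^ N, u' 1 ^ N, GG * w] : Fin 3 → Bb k u) (c i) * (X' ^ N) ^ i :
            Bb k u)) : F) = (x ^ N) ^ n + ∑ i ∈ Finset.range n,
          aeval (![u 0 ^ N, u 1 ^ N, aeval u q] : Fin 3 → F) (c i) * (x ^ N) ^ i := by
          rw [AddMemClass.coe_add, AddSubmonoidClass.coe_finsetSum]
          congr 1
          · rw [SubmonoidClass.coe_pow, SubmonoidClass.coe_pow, hX]
          · refine Finset.sum_congr rfl fun i _ => ?_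
            rw [MulMemClass.coe_mul, hval, SubmonoidClass.coe_pow, SubmonoidClass.coe_pow, hX]
        rw [h2, hrel]
        rfl
      have h3 : (X' ^ N) ^ n + ∑ i ∈ Finset.range n,
          aeval (![u' 0 ^ N, u' 1 ^ N] : Fin 2 → Bb k u)
            (aeval (![X 0, X 1, 0] : Fin 3 → MvPolynomial (Fin 2) k) (c i)) * (X' ^ N) ^ i =
          0 - ∑ i ∈ Finset.range n,
            (aeval (![u' 0 ^ N, u' 1 ^ N, GG * w] : Fin 3 → Bb k u) (c i) -
              aeval (![u' 0 ^ N, u' 1 ^ N] : Fin 2 → Bb k u)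
                (aeval (![X 0, X 1, 0] : Fin 3 → MvPolynomial (Fin 2) k) (c i))) *
              (X' ^ N) ^ i := by
        rw [← h1, add_sub_assoc, ← Finset.sum_sub_distrib]
        congr 1
        refine Finset.sum_congr rfl fun i _ => ?_
        ring
      rw [h3]
      refine dvd_sub (dvd_zero _) (Finset.dvd_sum fun i _ => ?_)
      exact (bs_mod _ _ _ _ _).mul_right _
  obtain ⟨D, P, y, z, hP, hP0, hPe⟩ := b2_comb (k := k) hN hred hN1 hN0
    (![u' 0 ^ N, u' 1 ^ N] : Fin 2 → Bb k u) D1 j0 (hex S SS D1 hSS hSE)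
    (hex (aeval u J) JJ j0 hJJ hEJ)
  -- in the field
  have hval2 : ((aeval (![u' 0 ^ N, u' 1 ^ N] : Fin 2 → Bb k u) P : Bb k u) : F) =
      aeval (![u 0 ^ N, u 1 ^ N] : Fin 2 → F) P := by
    have h1 : (Bb k u).val.comp (aeval (![u' 0 ^ N, u' 1 ^ N] : Fin 2 → Bb k u)) =
        aeval (![u 0 ^ N, u 1 ^ N] : Fin 2 → F) := by
      refine MvPolynomial.algHom_ext fun i => ?_
      rw [AlgHom.comp_apply, aeval_X, aeval_X, Subalgebra.val_apply]
      fin_cases i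
      · change ((u' 0 ^ N : Bb k u) : F) = u 0 ^ N
        rw [SubmonoidClass.coe_pow, hu']
      · change ((u' 1 ^ N : Bb k u) : F) = u 1 ^ N
        rw [SubmonoidClass.coe_pow, hu']
    exact congrArg (fun f => f P) h1
  have hPF : aeval (![u 0 ^ N, u 1 ^ N] : Fin 2 → F) P * aeval u J = G * z - S * y := by
    rw [← hval2, ← hJJ, ← MulMemClass.coe_mul, hPe, AddSubgroupClass.coe_sub,
      MulMemClass.coe_mul, MulMemClass.coe_mul, hGG, hSS]
  have hPF0 : aeval (![u 0 ^ N, u 1 ^ N] : Fin 2 → F) P ≠ 0 := by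
    rw [← hval2]
    intro h0
    exact hP0 (Subtype.ext h0)
  obtain ⟨tK, htK⟩ : ∃ tK : kap k u, (tK : F) = u 1 / u 0 :=
    ⟨⟨_, IntermediateField.subset_adjoin k _ rfl⟩, rfl⟩
  obtain ⟨cK, hcK⟩ : ∃ cK : kap k u, (cK : F) = aeval (![1, (u 1 / u 0) ^ N] : Fin 2 → F) P := by
    refine ⟨aeval (![1, tK ^ N] : Fin 2 → kap k u) P, ?_⟩
    have h1 : (kap k u).val.comp (aeval (![1, tK ^ N] : Fin 2 → kap k u)) =
        aeval (![1, (u 1 / u 0) ^ N] : Fin 2 → F) := by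
      refine MvPolynomial.algHom_ext fun i => ?_
      rw [AlgHom.comp_apply, aeval_X, aeval_X, IntermediateField.coe_val]
      fin_cases i
      · rfl
      · change ((tK ^ N : kap k u) : F) = (u 1 / u 0) ^ N
        rw [SubmonoidClass.coe_pow, htK]
    exact congrArg (fun f => f P) h1
  have hsc : aeval (![u 0 ^ N, u 1 ^ N] : Fin 2 → F) P = (u 0 ^ N) ^ D * cK := by
    rw [hcK, ← bs_scale (u 0 ^ N) (![1, (u 1 / u 0) ^ N] : Fin 2 → F) hP]
    congr 2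
    funext i
    fin_cases i
    · exact (mul_one _).symm
    · change u 1 ^ N = u 0 ^ N * (u 1 / u 0) ^ N
      rw [← mul_pow, mul_div_cancel₀ _ (hu0 0)]
  have hcK0 : (cK : F) ≠ 0 := by
    intro h0
    rw [hsc, h0, mul_zero] at hPF0
    exact hPF0 rfl
  -- in the ring of the elements which are integral over the field of the pencil
  have hself : ∀ i, ItK k u ((![u 0, u 2] : Fin 2 → F) i) := fun i =>
    Pool.Agent.H62.HIL.itg_iff.2 (Pool.Agent.H62.HIL.itg_var _ i)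
  obtain ⟨U0, hU0⟩ : ∃ U0 : Bb (kap k u) ![u 0, u 2], (U0 : F) = u 0 := ⟨⟨_, hself 0⟩, rfl⟩
  obtain ⟨U2, hU2⟩ : ∃ U2 : Bb (kap k u) ![u 0, u 2], (U2 : F) = u 2 := ⟨⟨_, hself 1⟩, rfl⟩
  obtain ⟨G1, hG1⟩ : ∃ G1 : Bb (kap k u) ![u 0, u 2], (G1 : F) = G :=
    ⟨⟨_, hIK _ h.itg⟩, rfl⟩
  obtain ⟨J1, hJ1⟩ : ∃ J1 : Bb (kap k u) ![u 0, u 2], (J1 : F) = aeval u J :=
    ⟨⟨_, hIK _ (hJJ ▸ JJ.2)⟩, rfl⟩
  obtain ⟨S1, hS1⟩ : ∃ S1 : Bb (kap k u) ![u 0, u 2], (S1 : F) = S := ⟨⟨_, hIK _ hSI⟩, rfl⟩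
  obtain ⟨z1, hz1⟩ : ∃ z1 : Bb (kap k u) ![u 0, u 2], (z1 : F) = z := ⟨⟨_, hIK _ z.2⟩, rfl⟩
  obtain ⟨y1, hy1⟩ : ∃ y1 : Bb (kap k u) ![u 0, u 2], (y1 : F) = y := ⟨⟨_, hIK _ y.2⟩, rfl⟩
  obtain ⟨w1, hw1⟩ : ∃ w1 : Bb (kap k u) ![u 0, u 2], (w1 : F) = aeval u q / G :=
    ⟨⟨_, hIK _ hqG⟩, rfl⟩
  have hal : ∀ x : kap k u,
      ((algebraMap (kap k u) (Bb (kap k u) ![u 0, u 2]) x : Bb (kap k u) ![u 0, u 2]) : F) = x :=
    fun x => rfl
  obtain ⟨I, hI⟩ : ∃ I : Ideal (Bb (kap k u) ![u 0, u 2]), I = Ideal.span {G1, S1} := ⟨_, rfl⟩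
  have hGI : G1 ∈ I := by
    rw [hI]
    exact Ideal.subset_span (Set.mem_insert _ _)
  have hSI' : S1 ∈ I := by
    rw [hI]
    exact Ideal.subset_span (Set.mem_insert_of_mem _ rfl)
  have hU0I : U0 ^ (N * D) * J1 ∈ I := by
    have h1 : U0 ^ (N * D) * J1 = algebraMap (kap k u) (Bb (kap k u) ![u 0, u 2]) cK⁻¹ *
        (G1 * z1 - S1 * y1) := by
      refine Subtype.ext ?_
      rw [MulMemClass.coe_mul, MulMemClass.coe_mul, hal, AddSubgroupClass.coe_sub,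
        MulMemClass.coe_mul, MulMemClass.coe_mul, SubmonoidClass.coe_pow, hU0, hG1, hS1, hz1,
        hy1, hJ1, ← hPF, hsc, pow_mul]
      have h2 : ((cK⁻¹ : kap k u) : F) = (cK : F)⁻¹ := rfl
      rw [h2]
      field_simp
    rw [h1]
    exact I.mul_mem_left _ (I.sub_mem (I.mul_mem_right _ hGI) (I.mul_mem_right _ hSI'))
  obtain ⟨T, hT, hT'⟩ := bs_expand u hq hq1
  obtain ⟨Y1, hY1⟩ : ∃ Y1 : Bb (kap k u) ![u 0, u 2], U2 ^ N + U0 * Y1 = G1 * w1 := by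
    refine ⟨∑ μ ∈ T, algebraMap (kap k u) (Bb (kap k u) ![u 0, u 2])
      (algebraMap k (kap k u) (coeff μ q) * tK ^ μ 1) *
        (U0 ^ (μ 0 + μ 1 - 1) * U2 ^ μ 2), Subtype.ext ?_⟩
    rw [AddMemClass.coe_add, MulMemClass.coe_mul, MulMemClass.coe_mul, hG1, hw1,
      mul_div_cancel₀ _ h.ne, hT, SubmonoidClass.coe_pow, hU2, hU0,
      AddSubmonoidClass.coe_finsetSum, Finset.mul_sum]
    congr 1
    refine Finset.sum_congr rfl fun μ hμ => ?_
    change u 0 * (algebraMap k F (coeff μ q) * (tK : F) ^ μ 1 *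
      ((U0 : F) ^ (μ 0 + μ 1 - 1) * (U2 : F) ^ μ 2)) = _
    rw [hU0, hU2, htK]
    obtain ⟨h2, h3⟩ := hT' μ hμ
    have h4 : u 0 ^ μ 0 * u 1 ^ μ 1 = (u 1 / u 0) ^ μ 1 * (u 0 * u 0 ^ (μ 0 + μ 1 - 1)) := by
      have h5 : u 0 * u 0 ^ (μ 0 + μ 1 - 1) = u 0 ^ μ 0 * u 0 ^ μ 1 := by
        rw [← pow_succ', ← pow_add]
        congr 1
        omega
      rw [h5, div_pow]
      have h6 : u 0 ^ μ 1 ≠ 0 := pow_ne_zero _ (hu0 0)
      field_simp
    rw [h4]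
    ring
  have hU2I : (U2 ^ N) ^ (N * D) * J1 ∈ I := by
    have h1 : U2 ^ N - (-(U0 * Y1)) ∈ I := by
      rw [sub_neg_eq_add, hY1]
      exact I.mul_mem_right _ hGI
    have h2 : (U2 ^ N) ^ (N * D) - (-(U0 * Y1)) ^ (N * D) ∈ I :=
      I.mem_of_dvd (sub_dvd_pow_sub_pow _ _ _) h1
    have h3 : (-(U0 * Y1)) ^ (N * D) * J1 ∈ I := by
      have h5 : (-(U0 * Y1)) ^ (N * D) * J1 = (U0 ^ (N * D) * J1) * (-Y1) ^ (N * D) := by
        have h6 : -(U0 * Y1) = U0 * (-Y1) := by ring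
        rw [h6, mul_pow]
        ring
      rw [h5]
      exact I.mul_mem_right _ hU0I
    have h4 := I.add_mem (I.mul_mem_right J1 h2) h3
    have h5 : ((U2 ^ N) ^ (N * D) - (-(U0 * Y1)) ^ (N * D)) * J1 + (-(U0 * Y1)) ^ (N * D) * J1 =
        (U2 ^ N) ^ (N * D) * J1 := by ring
    rwa [h5] at h4
  have h2I : U2 ^ (N * (N * D)) * J1 ∈ I := by
    rw [pow_mul]
    exact hU2I
  have h0I : U0 ^ (N * (N * D)) * J1 ∈ I := by
    obtain ⟨M, hM⟩ : ∃ M, N = M + 1 := ⟨N - 1, by omega⟩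
    have h1 : N * (N * D) = N * D + M * (N * D) := by
      rw [hM]
      ring
    have h3 : U0 ^ (N * D + M * (N * D)) * J1 = U0 ^ (N * D) * J1 * U0 ^ (M * (N * D)) := by
      rw [pow_add]
      ring
    rw [h1, h3]
    exact I.mul_mem_right _ hU0I
  rw [hI, Ideal.mem_span_pair] at h0I h2I
  obtain ⟨a1, b1, e1⟩ := h0I
  obtain ⟨a2, b2, e2⟩ := h2I
  refine ⟨N * (N * D), ![(a1 : F), b1, a2, b2], ?_, ?_, ?_⟩
  · intro i
    fin_cases i
    · exact a1.2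
    · exact b1.2
    · exact a2.2
    · exact b2.2
  · have h1 := congrArg (fun x : Bb (kap k u) ![u 0, u 2] => (x : F)) e1
    simp only [AddMemClass.coe_add, MulMemClass.coe_mul, SubmonoidClass.coe_pow, hU0, hG1,
      hS1, hJ1] at h1
    rw [← hS, mul_comm (aeval u J), ← h1]
    change (a1 : F) * G + b1 * S = G * a1 + S * b1
    ring
  · have h1 := congrArg (fun x : Bb (kap k u) ![u 0, u 2] => (x : F)) e2
    simp only [AddMemClass.coe_add, MulMemClass.coe_mul, SubmonoidClass.coe_pow, hU2, hG1,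
      hS1, hJ1] at h1
    rw [← hS, mul_comm (aeval u J), ← h1]
    change (a2 : F) * G + b2 * S = G * a2 + S * b2
    ring

end Pool.Agent.H55.SFV
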